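import Pool.Agent.helper74.VN.SpecC
import Pool.Agent.helper53.VQ.VFR

/-! # Row vn:NFR of MP_07c750_an (copy of VFR, helper53) -/

set_option autoImplicit false

open scoped MatrixGroups ContDiff Topology UpperHalfPlane ComplexConjugate ENNReal
open UpperHalfPlane MeasureTheory Filter Set

namespace Pool.Agent.VN

open Pool.Agent.RS Pool.Agent.VQ

noncomputable section

theorem NFR_proof (hVCD : VCD_stmt) (hVDM : VDM_stmt) (hNHA : NHA_stmt) : NFR_stmt := by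
  intro k hk
  obtain ⟨C0, hC0, hNHA⟩ := hNHA k hk
  refine ⟨C0, hC0, ?_⟩
  intro Γ F B D K η m R t f hD hO hη hη1 hm hRη hR14 hR hfa
  have hk16 : k ≤ 1 / 16 := hO.pot.kpos.2
  obtain ⟨-, -, -, -, -, -, hcd2, hcdc, -⟩ := hVCD
  have hRpos : 0 < R := by linarith
  have hc0 : 0 ≤ 2 * R ^ (-(1 / 4) : ℝ) := mul_nonneg (by norm_num) (Real.rpow_nonneg hRpos.le _)
  set c : ℝ := 2 * R ^ (-(1 / 4) : ℝ) with hc
  have hWi : Wi 2 R = Icc (-c) c := rfl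
  have hGW8 : ∀ p ∈ GW 2 R, |p.2| ≤ k := by
    intro p hp
    have h1 : p.2 ∈ Icc (-c) c := hp.2
    rw [abs_le]
    constructor
    · linarith [h1.1]
    · linarith [h1.2]
  -- continuity
  have hcont : ContinuousOn (fun x : (SL(2, ℝ) × ℝ) × ℍ => pF D t f x.1 x.2) {x | |x.1.2| ≤ k} := by
    have h1 : ContinuousOn (fun x : (SL(2, ℝ) × ℝ) × ℍ => D.fl x.1.2 t x.1.1) {x | |x.1.2| ≤ k} := by
      have h2 : ContinuousOn (fun x : (SL(2, ℝ) × ℝ) × ℍ => ((x.1.2, t, x.1.1) : ℝ × ℝ × SL(2, ℝ))) {x | |x.1.2| ≤ k} :=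
        (continuous_fst.snd.prodMk (continuous_const.prodMk continuous_fst.fst)).continuousOn
      exact hO.cfl.comp h2 (fun x hx => hx)
    have h3 : ContinuousOn (fun x : (SL(2, ℝ) × ℝ) × ℍ => cd ((D.fl x.1.2 t x.1.1)⁻¹ • x.2)) {x | |x.1.2| ≤ k} :=
      hcdc.comp_continuousOn (h1.inv.smul continuous_snd.continuousOn)
    have h4 : ContinuousOn (fun x : (SL(2, ℝ) × ℝ) × ℍ => ((x.1, cd ((D.fl x.1.2 t x.1.1)⁻¹ • x.2)) : (SL(2, ℝ) × ℝ) × ℂ)) {x | |x.1.2| ≤ k} :=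
      continuous_fst.continuousOn.prodMk h3
    exact hfa.cont.comp h4 (fun x hx => hx)
  -- bounds
  have hbd : ∀ p ∈ GW 2 R, ∀ z, ‖pF D t f p z‖ ≤ m ∧ (pF D t f p z ≠ 0 → dist (D.fl p.2 t p.1 • I : ℍ) z ≤ 1 ∧ dist (p.1 • I : ℍ) z ≤ C0 * |t| + 1) := by
    intro p hp z
    obtain ⟨A, -, hA1, hA2, hA3⟩ := hfa.pk p hp
    have h1 : pF D t f p z = Complex.exp (((R * rho D.U p.2 (D.fl p.2 t p.1) * (cd ((D.fl p.2 t p.1)⁻¹ • z)).re : ℝ) : ℂ) * Complex.I) * A (cd ((D.fl p.2 t p.1)⁻¹ • z)) := hA3 _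
    constructor
    · rw [h1, norm_mul, Complex.norm_exp_ofReal_mul_I, one_mul]
      have h2 := hA2 0 (Nat.zero_le _) (cd ((D.fl p.2 t p.1)⁻¹ • z))
      rwa [norm_iteratedFDeriv_zero, pow_zero, mul_one] at h2
    · intro h0
      rw [h1] at h0
      have h2 := hA1 _ (right_ne_zero_of_mul h0)
      have h3 := hcd2 ((D.fl p.2 t p.1)⁻¹ • z) (by linarith)
      have h4 : dist (D.fl p.2 t p.1 • I : ℍ) z = dist ((D.fl p.2 t p.1)⁻¹ • z) I := by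
        rw [dist_comm, ← dist_smul (D.fl p.2 t p.1) ((D.fl p.2 t p.1)⁻¹ • z) I, smul_inv_smul]
      have h5 : dist (D.fl p.2 t p.1 • I : ℍ) z ≤ 1 := by
        rw [h4]
        linarith
      refine ⟨h5, ?_⟩
      have h6 := (hNHA Γ B D hO p.2 0 t (hGW8 p hp) p.1).2.2.2
      have h7 := dist_triangle (p.1 • I : ℍ) (D.fl p.2 t p.1 • I : ℍ) z
      rw [dist_comm (p.1 • I : ℍ) (D.fl p.2 t p.1 • I : ℍ)] at h7
      linarith
  -- invariance
  have hinv : ∀ (γ : Γ) (p : SL(2, ℝ) × ℝ) (z : ℍ), |p.2| ≤ k → pF D t f ((γ : SL(2, ℝ)) * p.1, p.2) (γ • z) = pF D t f p z := by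
    intro γ p z hp
    have h1 : D.fl p.2 t ((γ : SL(2, ℝ)) * p.1) = (γ : SL(2, ℝ)) * D.fl p.2 t p.1 := (hNHA Γ B D hO p.2 0 t hp p.1).2.1 γ
    show f ((γ : SL(2, ℝ)) * p.1, p.2) (cd ((D.fl p.2 t ((γ : SL(2, ℝ)) * p.1))⁻¹ • (γ • z))) = f p (cd ((D.fl p.2 t p.1)⁻¹ • z))
    have h2 : ((γ : SL(2, ℝ)) * D.fl p.2 t p.1)⁻¹ • (γ • z) = (D.fl p.2 t p.1)⁻¹ • z := by
      have h3 : (γ • z : ℍ) = (γ : SL(2, ℝ)) • z := rfl
      rw [h3, mul_inv_rev, mul_smul, inv_smul_smul]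
    rw [h1, h2, hfa.inv]
  -- the family cut off in the energy
  let G : SL(2, ℝ) × ℝ → ℍ → ℂ := fun p z => pF D t f (p.1, VFR_cl c p.2) z
  have hGdef : ∀ p z, G p z = pF D t f (p.1, VFR_cl c p.2) z := fun _ _ => rfl
  have hmem : ∀ p : SL(2, ℝ) × ℝ, ((p.1, VFR_cl c p.2) : SL(2, ℝ) × ℝ) ∈ GW 2 R := fun p => ⟨trivial, VFR_cl_mem hc0 p.2⟩
  have hGeq : ∀ p ∈ GW 2 R, ∀ z, G p z = pF D t f p z := by
    intro p hp z
    rw [hGdef, VFR_cl_eq (c := c) hp.2]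
  have hG : VFR_G Γ m (C0 * |t| + 1) G := by
    refine ⟨?_, fun p z => (hbd _ (hmem p) z).1, fun p z h => ((hbd _ (hmem p) z).2 h).2, fun γ p z => ?_⟩
    · have h1 : Continuous fun x : (SL(2, ℝ) × ℝ) × ℍ => (((x.1.1, VFR_cl c x.1.2), x.2) : (SL(2, ℝ) × ℝ) × ℍ) :=
        (continuous_fst.fst.prodMk ((VFR_cl_cont c).comp continuous_fst.snd)).prodMk continuous_snd
      exact hcont.comp_continuous h1 (fun x => hGW8 _ (hmem x.1))
    · exact hinv γ (p.1, VFR_cl c p.2) z (hGW8 _ (hmem p))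
  have hW : MeasurableSet (Wi 2 R) := measurableSet_Icc
  have hW1 : Wi 2 R ⊆ Icc (-1) 1 := by
    rw [hWi]
    exact Icc_subset_Icc (by linarith) (by linarith)
  have : SecondCountableTopology SL(2, ℝ) := A_GLC.2.1
  have hGWm : MeasurableSet (GW 2 R) := MeasurableSet.univ.prod hW
  have haF : ∀ φ : ℍ → ℂ, aF D R t f φ = (GW 2 R).indicator fun p => ∫ z : ℍ, φ z * conj (G p z) := by
    intro φ
    unfold aF
    refine Set.indicator_congr fun p hp => ?_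
    refine integral_congr_ae (Eventually.of_forall fun z => ?_)
    show φ z * conj (pF D t f p z) = φ z * conj (G p z)
    rw [hGeq p hp z]
  have hsF : ∀ v : SL(2, ℝ) × ℝ → ℂ, sF D R t f v = fun z => ∫ q in univ ×ˢ Wi 2 R, v q * G q z ∂mP := by
    intro v
    funext z
    show ∫ q in univ ×ˢ Wi 2 R, v q * pF D t f q z ∂mP = _
    refine setIntegral_congr_fun hGWm fun q hq => ?_
    show v q * pF D t f q z = v q * G q z
    rw [hGeq q hq z]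
  refine ⟨hcont, hbd, hinv, fun v hv => ?_, fun φ hφ => ?_, fun φ v hφ hv => ?_⟩
  · rw [hsF]
    exact VFR_S hVDM hD hW hW1 hG hv
  · rw [haF]
    obtain ⟨h1, h2⟩ := VFR_Q hVDM hD hG hφ
    have hGWi : ∀ (γ : Γ) (p : SL(2, ℝ) × ℝ), (((γ : SL(2, ℝ)) * p.1, p.2) : SL(2, ℝ) × ℝ) ∈ GW 2 R ↔ p ∈ GW 2 R := fun γ p =>
      ⟨fun h => ⟨trivial, h.2⟩, fun h => ⟨trivial, h.2⟩⟩
    refine ⟨h2.meas.indicator hGWm, ?_, fun γ p => ?_, ?_⟩
    · obtain ⟨b, hb⟩ := h2.bdd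
      refine ⟨b, fun p => ?_⟩
      by_cases hp : p ∈ GW 2 R
      · rw [Set.indicator_of_mem hp]
        exact hb p
      · rw [Set.indicator_of_notMem hp, norm_zero]
        exact (norm_nonneg _).trans (hb p)
    · by_cases hp : p ∈ GW 2 R
      · rw [Set.indicator_of_mem hp, Set.indicator_of_mem ((hGWi γ p).2 hp)]
        exact h2.inv γ p
      · rw [Set.indicator_of_notMem hp, Set.indicator_of_notMem (fun h => hp ((hGWi γ p).1 h))]
    · obtain ⟨b, hb⟩ := h2.supp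
      refine ⟨b, fun p hp h0 => hb p hp fun h3 => h0 ?_⟩
      by_cases hp2 : p ∈ GW 2 R
      · rw [Set.indicator_of_mem hp2]
        exact h3
      · rw [Set.indicator_of_notMem hp2]
  · have h1 := VFR_adj hVDM hD hW hW1 hG hφ hv
    rw [hsF, ← h1]
    obtain ⟨-, -, -, -, hV⟩ := hVDM Γ F hD
    have hdG : MeasurableSet (dG F) := (hV (Wi 2 R) hW).2.2.2.2.1
    show ∫ p in dG F ×ˢ Wi 2 R, aF D R t f φ p * conj (v p) ∂mP = _
    refine setIntegral_congr_fun (hdG.prod hW) fun p hp => ?_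
    show aF D R t f φ p * conj (v p) = (∫ z : ℍ, φ z * conj (G p z)) * conj (v p)
    rw [haF, Set.indicator_of_mem (show p ∈ GW 2 R from ⟨trivial, hp.2⟩)]

end

end Pool.Agent.VN
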