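import Pool.Agent.helper74.VN.SpecC
import Pool.Agent.helper68.VQ.VTN

/-! # Row vn:NTN of MP_07c750_an (copy of VTN) -/

set_option autoImplicit false

open scoped MatrixGroups ContDiff Topology UpperHalfPlane ComplexConjugate ENNReal
open UpperHalfPlane MeasureTheory Filter Set

namespace Pool.Agent.VN

open Pool.Agent.RS Pool.Agent.VQ

theorem NTN_meas {Γ : Subgroup SL(2, ℝ)} {k : ℝ} {B : ℕ → ℝ} {D : Dyn} (hD : OKN Γ k B D) (f : ℍ → ℝ) (hf : Continuous f) :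
    Measurable (fun x : (SL(2, ℝ) × ℝ) × ℝ => D.U (D.fl x.1.2 x.2 x.1.1 • I) * f (D.fl x.1.2 x.2 x.1.1 • I)) := by
  classical
  have : SecondCountableTopology SL(2, ℝ) := A_GLC.2.1
  have hU : Continuous D.U := hD.pot.inv.1
  have hs : MeasurableSet {x : (SL(2, ℝ) × ℝ) × ℝ | |x.1.2| ≤ k} := by
    have : IsClosed {x : (SL(2, ℝ) × ℝ) × ℝ | |x.1.2| ≤ k} :=
      isClosed_le (by fun_prop) continuous_const
    exact this.measurableSet
  have h1 : ContinuousOn (fun x : (SL(2, ℝ) × ℝ) × ℝ => D.fl x.1.2 x.2 x.1.1) {x | |x.1.2| ≤ k} := by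
    have h2 : ContinuousOn (fun x : (SL(2, ℝ) × ℝ) × ℝ => ((x.1.2, x.2, x.1.1) : ℝ × ℝ × SL(2, ℝ)))
        {x | |x.1.2| ≤ k} := by
      refine Continuous.continuousOn ?_
      fun_prop
    exact hD.cfl.comp h2 (fun x hx => hx)
  have h3 : ContinuousOn (fun x : (SL(2, ℝ) × ℝ) × ℝ => x.1.1) {x | |x.1.2| ≤ k}ᶜ := by
    refine Continuous.continuousOn ?_
    fun_prop
  have h4 := ContinuousOn.measurable_piecewise h1 h3 hs
  have h5 : (fun x : (SL(2, ℝ) × ℝ) × ℝ => D.fl x.1.2 x.2 x.1.1) =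
      ({x : (SL(2, ℝ) × ℝ) × ℝ | |x.1.2| ≤ k}).piecewise (fun x : (SL(2, ℝ) × ℝ) × ℝ => D.fl x.1.2 x.2 x.1.1) (fun x => x.1.1) := by
    funext x
    by_cases hx : x ∈ {x : (SL(2, ℝ) × ℝ) × ℝ | |x.1.2| ≤ k}
    · rw [Set.piecewise_eq_of_mem _ _ _ hx]
    · rw [Set.piecewise_eq_of_notMem _ _ _ hx]
      exact (hD.out x.1.2 x.2 x.1.1 (not_le.1 hx)).1
  have h6 : Measurable (fun x : (SL(2, ℝ) × ℝ) × ℝ => D.fl x.1.2 x.2 x.1.1) := by
    rw [h5]
    exact h4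
  have h7 : Continuous (fun g : SL(2, ℝ) => D.U (g • I) * f (g • I)) :=
    (hU.comp VTN_smulI).mul (hf.comp VTN_smulI)
  exact h7.measurable.comp h6

theorem NTN_thM {Γ : Subgroup SL(2, ℝ)} {k : ℝ} {B : ℕ → ℝ} {D : Dyn} (hD : OKN Γ k B D) (f : ℍ → ℝ) (hf : Continuous f)
    (R t : ℝ) : Measurable (thP D f R t) := by
  have h1 := NTN_meas hD f hf
  unfold thP
  refine measurable_const.mul ?_
  simp only [intervalIntegral]
  have h2 : ∀ s : Set ℝ, Measurable (fun p : SL(2, ℝ) × ℝ => ∫ u in s, D.U (D.fl p.2 u p.1 • I) * f (D.fl p.2 u p.1 • I)) := by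
    intro s
    have h3 : StronglyMeasurable (Function.uncurry fun (p : SL(2, ℝ) × ℝ) (u : ℝ) =>
        D.U (D.fl p.2 u p.1 • I) * f (D.fl p.2 u p.1 • I)) := h1.stronglyMeasurable
    exact (h3.integral_prod_right (ν := volume.restrict s)).measurable
  exact (h2 _).sub (h2 _)

theorem NTN_thI (hNHA : NHA_stmt) {Γ : Subgroup SL(2, ℝ)} {k : ℝ} {B : ℕ → ℝ} {D : Dyn} (hD : OKN Γ k B D)
    (f : ℍ → ℝ) (hf : QU.Inv Γ f) (R t : ℝ) (γ : Γ) (p : SL(2, ℝ) × ℝ) :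
    thP D f R t ((γ : SL(2, ℝ)) * p.1, p.2) = thP D f R t p := by
  have h1 : ∀ s, D.fl p.2 s ((γ : SL(2, ℝ)) * p.1) = (γ : SL(2, ℝ)) * D.fl p.2 s p.1 := by
    intro s
    by_cases hE : |p.2| ≤ k
    · obtain ⟨C, hC, h⟩ := hNHA k hD.pot.kpos.1
      exact (h Γ B D hD p.2 0 s hE p.1).2.1 γ
    · rw [(hD.out p.2 s _ (not_le.1 hE)).1, (hD.out p.2 s _ (not_le.1 hE)).1]
  have h2 : ∀ (g : ℍ → ℝ), QU.Inv Γ g → ∀ h : SL(2, ℝ), g (((γ : SL(2, ℝ)) * h) • I) = g (h • I) := by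
    intro g hg h
    rw [mul_smul]
    exact hg.2 γ (h • I)
  unfold thP
  simp only [h1, h2 D.U hD.pot.inv, h2 f hf]

theorem NTN_proof (hNTS : NTS_stmt) (hNUM : NUM_stmt) (hNHA : NHA_stmt) : NTN_stmt := by
  intro k hk
  obtain ⟨C1, hC1, hS⟩ := hNTS k hk
  obtain ⟨C2, hC2, hM⟩ := hNUM k hk
  refine ⟨max C1 C2, le_trans hC1 (le_max_left _ _), fun ch B A hch hA => ?_⟩
  have hmax : 1 ≤ max C1 C2 := le_trans hC1 (le_max_left _ _)
  obtain ⟨R2, hR2, hS⟩ := hS ch B A hch (VTN_adm hmax (le_max_left _ _) hA)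
  obtain ⟨R3, hR3, hM⟩ := hM ch B A hch (VTN_adm hmax (le_max_right _ _) hA)
  obtain ⟨R4, hR4, hN⟩ := VTN_num (A.m + 1)
  refine ⟨max (max R2 R3) R4, le_trans hR2 (le_trans (le_max_left _ _) (le_max_left _ _)), ?_⟩
  intro R Γ F D hR hDm hD
  have hRR2 : R2 ≤ R := le_trans (le_trans (le_max_left _ _) (le_max_left _ _)) hR
  have hRR3 : R3 ≤ R := le_trans (le_trans (le_max_right _ _) (le_max_left _ _)) hR
  have hRR4 : R4 ≤ R := le_trans (le_max_right _ _) hR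
  have hR0 : 0 < R := by linarith
  obtain ⟨m1, m2, m3, m4, m5, m6, m7⟩ := hM R Γ F D hRR3 hDm hD
  have hx0 : 0 < R ^ (-(1 / 5) : ℝ) := Real.rpow_pos_of_pos hR0 _
  have hnP : ∀ v, 0 ≤ nP F 2 R v := fun v => integral_nonneg fun p => sq_nonneg _
  have hFP : ∀ j v, FP Γ F v → FP Γ F (Op (usm D ch A R j) v) := fun j v hv =>
    m6 (usm D ch A R j) v (m2 j) (fun p q h => m5 j p q h) hv
  have hind : ∀ (j : ℕ) (v : SL(2, ℝ) × ℝ → ℂ), FP Γ F v →
      nP F 2 R (Op (usm D ch A R j) v) ≤ ((1 + R ^ (-(1 / 5) : ℝ)) ^ (j + 1)) ^ 2 * nP F 2 R v := by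
    intro j
    induction j with
    | zero =>
      intro v hv
      have h1 := (hS R Γ F D v hRR2 hDm hD hv).2.2.2
      have h2 : usm D ch A R 0 = pr D ch A R := rfl
      rw [h2, zero_add, pow_one]
      exact h1
    | succ j ih =>
      intro v hv
      have h3 : Op (usm D ch A R (j + 1)) v = Op (us D ch A R) (Op (usm D ch A R j) v) := by
        funext p
        exact m7 j v p hv
      rw [h3]
      have h4 := (hS R Γ F D (Op (usm D ch A R j) v) hRR2 hDm hD (hFP j v hv)).2.2.1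
      refine h4.trans ?_
      refine (mul_le_mul_of_nonneg_left (ih v hv) (sq_nonneg _)).trans (le_of_eq ?_)
      ring
  have h1 : ∀ (j : ℕ) (v : SL(2, ℝ) × ℝ → ℂ), j ≤ A.m → FP Γ F v →
      nP F 2 R (Op (usm D ch A R j) v) ≤ (1 + R ^ (-(1 / 6) : ℝ)) ^ 2 * nP F 2 R v := by
    intro j v hj hv
    refine (hind j v hv).trans (mul_le_mul_of_nonneg_right ?_ (hnP v))
    refine pow_le_pow_left₀ (by positivity) ?_ 2
    refine le_trans ?_ (hN R hRR4)
    exact pow_le_pow_right₀ (by linarith) (by omega)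
  refine ⟨h1, fun f t hf => ?_⟩
  have hth := NTN_thM hD f hf.1 R
  have hthI := NTN_thI hNHA hD f hf R
  have hph : ∀ p, ‖Complex.exp (-(((thP D f R (A.tu R) p : ℝ) : ℂ) * Complex.I))‖ = 1 := by
    intro p
    have h5 : -(((thP D f R (A.tu R) p : ℝ) : ℂ) * Complex.I) = ((-(thP D f R (A.tu R) p) : ℝ) : ℂ) * Complex.I := by
      push_cast
      ring
    rw [h5, Complex.norm_exp_ofReal_mul_I]
  have hK := m2 A.m
  refine ⟨hth t, hthI t, ⟨?_, ?_, ?_, ?_⟩, ?_⟩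
  · have h6 : Measurable (fun p : SL(2, ℝ) × ℝ => Complex.exp (-(((thP D f R (A.tu R) p : ℝ) : ℂ) * Complex.I))) := by
      have h7 := hth (A.tu R)
      fun_prop
    have h8 : Function.uncurry (KB D ch A R f) = fun x : (SL(2, ℝ) × ℝ) × (SL(2, ℝ) × ℝ) =>
        Complex.exp (-(((thP D f R (A.tu R) x.1 : ℝ) : ℂ) * Complex.I)) * Function.uncurry (usm D ch A R A.m) x := by
      funext x
      rfl
    rw [h8]
    exact (h6.comp measurable_fst).mul hK.meas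
  · obtain ⟨b, hb⟩ := hK.bdd
    refine ⟨b, fun x y => ?_⟩
    unfold KB
    rw [norm_mul, hph, one_mul]
    exact hb x y
  · intro γ x y
    unfold KB
    have h9 : thP D f R (A.tu R) (γ • x) = thP D f R (A.tu R) x := hthI (A.tu R) γ x
    have h10 : ub D ch A R (γ • x) (γ • y) = ub D ch A R x y := hK.inv γ x y
    rw [h9, h10]
  · obtain ⟨T, hT⟩ := hK.range
    refine ⟨T, fun x y hxy => hT x y ?_⟩
    intro h11
    apply hxy
    unfold KB ub
    rw [h11, mul_zero]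
  · intro v hv
    refine le_trans (le_of_eq ?_) (h1 A.m v le_rfl hv)
    unfold nP
    refine integral_congr_ae (Eventually.of_forall fun p => ?_)
    have h12 : Op (KB D ch A R f) v p = Complex.exp (-(((thP D f R (A.tu R) p : ℝ) : ℂ) * Complex.I)) *
        Op (usm D ch A R A.m) v p := by
      unfold Op
      rw [← integral_const_mul]
      refine integral_congr_ae (Eventually.of_forall fun q => ?_)
      change Complex.exp (-(((thP D f R (A.tu R) p : ℝ) : ℂ) * Complex.I)) * usm D ch A R A.m p q * v q = _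
      ring
    change ‖Op (KB D ch A R f) v p‖ ^ 2 = ‖Op (usm D ch A R A.m) v p‖ ^ 2
    rw [h12, norm_mul, hph, one_mul]

end Pool.Agent.VN
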