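import Pool.Agent.helper55.VN.SpecD
import Pool.Agent.helper92.VQ.EDM

/-!
# Row `vn:QDM` (MP_07c750): all small steps (copy of EDM, helper92)
-/

set_option autoImplicit false

open scoped MatrixGroups ContDiff Topology UpperHalfPlane ComplexConjugate ENNReal
open UpperHalfPlane MeasureTheory Filter Set

namespace Pool.Agent.VN

open Pool.Agent.RS Pool.Agent.VQ
open Pool.Agent.RPQ (CEig mean VV IsOp)

noncomputable section

/-- **Row QDM** -/
theorem QDM_proof (hQD1 : QD1_stmt) (hQDC : QDC_stmt) (hQDY : QDY_stmt) (hQDW : QDW_stmt) (hNTS : NTS_stmt)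
    (hNTN : NTN_stmt) (hNUM : NUM_stmt) (hVDM : VDM_stmt) : QDM_stmt := by
  classical
  intro κ hκ
  obtain ⟨C1, hC1, h1⟩ := hQD1 κ hκ
  obtain ⟨C2, hC2, h2⟩ := hQDC κ hκ
  obtain ⟨C3, hC3, h3⟩ := hQDY κ hκ
  obtain ⟨C4, hC4, h4⟩ := hQDW κ hκ
  obtain ⟨C5, hC5, h5⟩ := hNTS κ hκ
  obtain ⟨C6, hC6, h6⟩ := hNTN κ hκ
  obtain ⟨C7, hC7, h7⟩ := hNUM κ hκ
  refine ⟨C1 + C2 + C3 + C4 + C5 + C6 + C7, by linarith, ?_⟩
  intro ch B A hch hA
  obtain ⟨R1, hR1, h1⟩ := h1 ch B A hch (Adm_mono hA hC1 (by linarith))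
  obtain ⟨R2, hR2, h2⟩ := h2 ch B A hch (Adm_mono hA hC2 (by linarith))
  obtain ⟨R3, hR3, h3⟩ := h3 B A (Adm_mono hA hC3 (by linarith))
  obtain ⟨R4, hR4, h4⟩ := h4 ch B A hch (Adm_mono hA hC4 (by linarith))
  obtain ⟨R5, hR5, h5⟩ := h5 ch B A hch (Adm_mono hA hC5 (by linarith))
  obtain ⟨R6, hR6, h6⟩ := h6 ch B A hch (Adm_mono hA hC6 (by linarith))
  obtain ⟨R7, hR7, h7⟩ := h7 ch B A hch (Adm_mono hA hC7 (by linarith))
  have h20 : (0 : ℝ) ≤ 20 ^ (560 * A.m) := by positivity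
  refine ⟨R1 + R2 + R3 + R4 + R5 + R6 + R7 + 16 + 20 ^ (560 * A.m), by linarith, ?_⟩
  intro R Γ F D f F' μ φ hR hΓ hF hD hE
  have hR16 : 16 ≤ R := by linarith
  have hRp : 0 < R := by linarith
  have hR1' : 1 ≤ R := by linarith
  have hDm : Dm Γ F := Or.inl ⟨hΓ, hF⟩
  obtain ⟨e1, e1'⟩ := h1 R Γ F D f F' μ φ (by linarith) hΓ hF hD hE
  have e2 := h2 R (R ^ (-(1 / 4) : ℝ)) Γ F D
  obtain ⟨e3, e3'⟩ := h3 R Γ D f (by linarith) hD hE.sm
  obtain ⟨e4, -, e4', -⟩ := h4 R Γ F D f F' μ φ (by linarith) hΓ hF hD hE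
  have e5 := fun v hv => (h5 R Γ F D v (by linarith) hDm hD hv).2.2.1
  obtain ⟨-, e6⟩ := h6 R Γ F D (by linarith) hDm hD
  obtain ⟨k1, k2, -, k3, k4, k5, k6⟩ := h7 R Γ F D (by linarith) hDm hD
  obtain ⟨-, -, -, hmz, hdm⟩ := hVDM Γ F hDm
  have hW4 : R ^ (-(1 / 4) : ℝ) ≤ 1 / 2 := by
    have a1 : (16 : ℝ) ^ (1 / 4 : ℝ) ≤ R ^ (1 / 4 : ℝ) := Real.rpow_le_rpow (by norm_num) hR16 (by norm_num)
    have a2 : (16 : ℝ) ^ (1 / 4 : ℝ) = 2 := by
      rw [show (16 : ℝ) = 2 ^ (4 : ℝ) by norm_num, ← Real.rpow_mul (by norm_num)]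
      norm_num
    rw [Real.rpow_neg hRp.le, inv_le_comm₀ (by positivity) (by norm_num)]
    rw [a2] at a1
    linarith
  have hWI : Wi 2 R ⊆ Icc (-1) 1 := fun E hE' => ⟨by linarith [hE'.1], by linarith [hE'.2]⟩
  have hWm : MeasurableSet (Wi 2 R) := measurableSet_Icc
  obtain ⟨-, -, -, -, hdG, hvol⟩ := hdm (Wi 2 R) hWm
  have hM : VUM_M Γ F (Wi 2 R) := by
    obtain ⟨b1, b2, -⟩ := hdm univ MeasurableSet.univ
    rw [univ_prod_univ, Measure.restrict_univ] at b1 b2
    refine ⟨b1, hWm, b2, fun T => ?_, hmz, hDm⟩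
    have := hvol T
    rwa [inter_eq_left.2 hWI] at this
  have hS1 : VUM_S (Wi 2 R) (us D ch A R) := fun p q h => ⟨(k3 p q h).1.2, (k3 p q h).2.2⟩
  -- the phases
  have hth := fun t => e6 f t hE.sm.inv
  set Φ := QF D.U ch A.z R φ with hΦ
  set N := nn F φ with hN
  have hN0 : 0 ≤ N := integral_nonneg fun _ => by positivity
  set H : ℝ → SL(2, ℝ) × ℝ → ℂ := fun t p => Complex.exp (((thP D f R t p : ℝ) : ℂ) * Complex.I) with hH
  have hHm : ∀ t, Measurable (H t) := fun t =>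
    Complex.measurable_exp.comp ((Complex.measurable_ofReal.comp (hth t).1).mul_const Complex.I)
  have hHn : ∀ t p, ‖H t p‖ = 1 := fun t p => Complex.norm_exp_ofReal_mul_I _
  have hHi : ∀ t (γ : Γ) (p : SL(2, ℝ) × ℝ), H t ((γ : SL(2, ℝ)) * p.1, p.2) = H t p := by
    intro t γ p
    show Complex.exp _ = Complex.exp _
    rw [(hth t).2.1]
  have hσ0 : 0 ≤ A.sg R := mul_nonneg hA.e3.le (Real.log_nonneg hR1')
  have hVk : ∀ k, FP Γ F (Op (usm D ch A R k) Φ) := fun k => k5 _ _ (k2 k) (k4 k) e4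
  have hHΦ : ∀ t, FP Γ F (fun p => H t p * Φ p) := fun t => EDM_mul (hHm t) (fun p => (hHn t p).le) (hHi t) e4
  have hUk : FP Γ F (Op (us D ch A R) Φ) := k5 _ _ k1 k3 e4
  -- the main estimate
  have hR70 : 0 ≤ R ^ (-(1 / 70) : ℝ) := Real.rpow_nonneg hRp.le _
  have key : ∀ k : ℕ, k ≤ A.m →
      nP F 2 R (fun p => Op (usm D ch A R k) Φ p - H (k * A.sg R) p * Φ p) ≤ 20 ^ k * (R ^ (-(1 / 70) : ℝ) * N) := by
    intro k
    induction k with
    | zero =>
      intro _
      have a1 : nP F 2 R (fun p => Op (usm D ch A R 0) Φ p - H ((0 : ℕ) * A.sg R) p * Φ p) =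
          nP F 2 R (fun p => Op (pr D ch A R) Φ p - Φ p) := by
        refine EDM_eq hdG fun p _ => ?_
        have : H ((0 : ℕ) * A.sg R) p = 1 := by
          show Complex.exp (((thP D f R ((0 : ℕ) * A.sg R) p : ℝ) : ℂ) * Complex.I) = 1
          unfold thP
          rw [Nat.cast_zero, zero_mul, intervalIntegral.integral_same, mul_zero, Complex.ofReal_zero, zero_mul,
            Complex.exp_zero]
        rw [this, one_mul]
        rfl
      rw [a1, pow_zero, one_mul]
      refine e1'.trans (mul_le_mul_of_nonneg_right ?_ hN0)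
      exact Real.rpow_le_rpow_of_exponent_le hR1' (by norm_num)
    | succ k ih =>
      intro hk
      have ih := ih (by omega)
      set σ := A.sg R with hσ
      -- the error
      set er : SL(2, ℝ) × ℝ → ℂ := fun p => Op (usm D ch A R k) Φ p - H (k * σ) p * Φ p with her
      have her' : FP Γ F er := EDM_sub (hVk k) (hHΦ _)
      have hx : FP Γ F (Op (us D ch A R) er) := k5 _ _ k1 k3 her'
      have hHk : FP Γ F (Op (us D ch A R) (fun q => H (k * σ) q * Φ q)) := k5 _ _ k1 k3 (hHΦ _)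
      -- the phase at the moved point
      set G : SL(2, ℝ) × ℝ → ℂ := fun p =>
        Complex.exp (((thP D f R ((k + 1 : ℕ) * σ) p - thP D f R σ p : ℝ) : ℂ) * Complex.I) with hG
      have hGm : Measurable G :=
        Complex.measurable_exp.comp ((Complex.measurable_ofReal.comp ((hth _).1.sub (hth _).1)).mul_const Complex.I)
      have hGn : ∀ p, ‖G p‖ = 1 := fun p => Complex.norm_exp_ofReal_mul_I _
      have hGi : ∀ (γ : Γ) (p : SL(2, ℝ) × ℝ), G ((γ : SL(2, ℝ)) * p.1, p.2) = G p := by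
        intro γ p
        show Complex.exp _ = Complex.exp _
        rw [(hth _).2.1, (hth _).2.1]
      have hGU : FP Γ F (fun p => G p * Op (us D ch A R) Φ p) := EDM_mul hGm (fun p => (hGn p).le) hGi hUk
      have hy : FP Γ F (fun p => Op (us D ch A R) (fun q => H (k * σ) q * Φ q) p - G p * Op (us D ch A R) Φ p) :=
        EDM_sub hHk hGU
      have hz : FP Γ F (fun p => G p * (Op (us D ch A R) Φ p - H σ p * Φ p)) :=
        EDM_mul hGm (fun p => (hGn p).le) hGi (EDM_sub hUk (hHΦ _))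
      have hGH : ∀ p, G p * H σ p = H ((k + 1 : ℕ) * σ) p := by
        intro p
        show Complex.exp _ * Complex.exp _ = Complex.exp _
        rw [← Complex.exp_add]
        congr 1
        push_cast
        ring
      have hGph : ∀ p ∈ GW 2 R, H (k * σ) (D.ph σ p) = G p := by
        intro p hp
        have a1 := e3 σ (k * σ) p hp
        have a2 : σ + k * σ = ((k + 1 : ℕ) : ℝ) * σ := by
          push_cast
          ring
        rw [a2] at a1
        show Complex.exp _ = Complex.exp _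
        rw [a1]
        congr 3
        ring
      -- the decomposition
      have hdec : ∀ p ∈ GW 2 R, Op (usm D ch A R (k + 1)) Φ p - H ((k + 1 : ℕ) * σ) p * Φ p =
          Op (us D ch A R) er p + (Op (us D ch A R) (fun q => H (k * σ) q * Φ q) p - G p * Op (us D ch A R) Φ p) +
            G p * (Op (us D ch A R) Φ p - H σ p * Φ p) := by
        intro p _
        have a1 : Op (us D ch A R) (Op (usm D ch A R k) Φ) p = Op (us D ch A R) er p +
            Op (us D ch A R) (fun q => H (k * σ) q * Φ q) p := by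
          obtain ⟨V, -, hV⟩ := VUM_int hM k1 hS1
          obtain ⟨b, hb⟩ := her'.bdd
          obtain ⟨b', hb'⟩ := (hHΦ (k * σ)).bdd
          have i1 := (hV er b her'.meas hb p).1
          have i2 := (hV (fun q => H (k * σ) q * Φ q) b' (hHΦ (k * σ)).meas hb' p).1
          show ∫ q, us D ch A R p q * Op (usm D ch A R k) Φ q ∂mP = ∫ q, us D ch A R p q * er q ∂mP +
            ∫ q, us D ch A R p q * (H (k * σ) q * Φ q) ∂mP
          rw [← integral_add i1 i2]
          refine integral_congr_ae (Eventually.of_forall fun q => ?_)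
          show us D ch A R p q * Op (usm D ch A R k) Φ q = us D ch A R p q * er q + us D ch A R p q * (H (k * σ) q * Φ q)
          rw [her]
          ring
        rw [k6 k Φ p e4, a1, ← hGH p]
        ring
      -- the three estimates
      have n1 : nP F 2 R (Op (us D ch A R) er) ≤ 4 * (20 ^ k * (R ^ (-(1 / 70) : ℝ) * N)) := by
        have a1 := e5 er her'
        have a2 : (1 + R ^ (-(1 / 5) : ℝ)) ^ 2 ≤ 4 := by
          have b1 : R ^ (-(1 / 5) : ℝ) ≤ 1 := Real.rpow_le_one_of_one_le_of_nonpos hR1' (by norm_num)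
          have b2 : 0 ≤ R ^ (-(1 / 5) : ℝ) := Real.rpow_nonneg hRp.le _
          nlinarith
        refine a1.trans ((mul_le_mul_of_nonneg_right a2 (EDM_nP_nonneg F R er)).trans ?_)
        exact mul_le_mul_of_nonneg_left ih (by norm_num)
      have n2 : nP F 2 R (fun p => Op (us D ch A R) (fun q => H (k * σ) q * Φ q) p - G p * Op (us D ch A R) Φ p) ≤
          R ^ (-(1 / 70) : ℝ) * N := by
        have a1 : nP F 2 R (fun p => Op (us D ch A R) (fun q => H (k * σ) q * Φ q) p - G p * Op (us D ch A R) Φ p) =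
            nP F 2 R (fun p => Op (us D ch A R) (fun q => H (k * σ) q * Φ q) p - H (k * σ) (D.ph (A.sg R) p) *
              Op (us D ch A R) Φ p) := by
          refine EDM_eq hdG fun p hp => ?_
          rw [← hσ, hGph p hp]
        have hSV : SV Γ A R (R ^ (-(1 / 4) : ℝ)) (H (k * σ)) := by
          refine ⟨hHm _, hHi _, fun p => (hHn _ p).le, fun p q hp hq hpq => ?_⟩
          have b1 : (k : ℝ) * σ ≤ A.tu R := by
            show (k : ℝ) * σ ≤ A.m * A.sg R
            refine mul_le_mul_of_nonneg_right ?_ hσ0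
            exact_mod_cast (by omega : k ≤ A.m)
          have b2 := e3' (k * σ) p q hp hq hpq (mul_nonneg (Nat.cast_nonneg k) hσ0) b1
          refine le_trans ?_ b2
          exact EDM_exp _ _
        have a2 := e2 (H (k * σ)) Φ (by linarith) hDm hD (Real.rpow_nonneg hRp.le _) hSV e4
        rw [a1]
        refine a2.trans ?_
        have b1 : (R ^ (-(1 / 4) : ℝ)) ^ 2 * R ^ (1 / 100 : ℝ) ≤ R ^ (-(1 / 70) : ℝ) := by
          rw [← Real.rpow_natCast, ← Real.rpow_mul hRp.le, ← Real.rpow_add hRp]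
          exact Real.rpow_le_rpow_of_exponent_le hR1' (by norm_num)
        exact mul_le_mul b1 e4' (EDM_nP_nonneg F R Φ) hR70
      have n3 : nP F 2 R (fun p => G p * (Op (us D ch A R) Φ p - H σ p * Φ p)) ≤ R ^ (-(1 / 70) : ℝ) * N := by
        have a1 : nP F 2 R (fun p => G p * (Op (us D ch A R) Φ p - H σ p * Φ p)) =
            nP F 2 R (fun p => Op (us D ch A R) Φ p - H σ p * Φ p) := by
          refine EDM_eq hdG fun p _ => ?_
          rw [norm_mul, hGn, one_mul]
        rw [a1]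
        exact e1
      have tot := EDM_tri hdG hWI hvol hx hy hz hdec
      have hA0 : 0 ≤ R ^ (-(1 / 70) : ℝ) * N := mul_nonneg hR70 hN0
      have h20k : (1 : ℝ) ≤ 20 ^ k := one_le_pow₀ (by norm_num)
      have hB0 : R ^ (-(1 / 70) : ℝ) * N ≤ 20 ^ k * (R ^ (-(1 / 70) : ℝ) * N) := by nlinarith
      have hfin : (20 : ℝ) ^ (k + 1) * (R ^ (-(1 / 70) : ℝ) * N) = 20 * (20 ^ k * (R ^ (-(1 / 70) : ℝ) * N)) := by
        rw [pow_succ]
        ring
      rw [hfin]
      refine tot.trans ?_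
      linarith
  intro k hk
  have a1 := key k hk
  refine a1.trans ?_
  have a2 : (20 : ℝ) ^ k ≤ 20 ^ A.m := pow_le_pow_right₀ (by norm_num) hk
  have a3 := EDM_num A.m R (by linarith) hR1'
  calc (20 : ℝ) ^ k * (R ^ (-(1 / 70) : ℝ) * N) ≤ 20 ^ A.m * (R ^ (-(1 / 70) : ℝ) * N) :=
        mul_le_mul_of_nonneg_right a2 (mul_nonneg hR70 hN0)
    _ = (20 ^ A.m * R ^ (-(1 / 70) : ℝ)) * N := by ring
    _ ≤ R ^ (-(1 / 80) : ℝ) * N := mul_le_mul_of_nonneg_right a3 hN0

end

end Pool.Agent.VN
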