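import Pool.Agent.helper74.VN.SpecC

/-! # Row vn:NFM of MP_07c750_an: the families of the project -/

set_option autoImplicit false

open scoped MatrixGroups ContDiff Topology UpperHalfPlane ComplexConjugate ENNReal
open UpperHalfPlane MeasureTheory Filter Set

namespace Pool.Agent.VN

open Pool.Agent.RS Pool.Agent.VQ

noncomputable section

theorem NFM_pk {K : ℕ} {η η' m m' R ρ : ℝ} {f : ℂ → ℂ} (hR : 1 ≤ R) (h : Pk K η m R ρ f) (hη : η ≤ η') (hm : m ≤ m') (hm0 : 0 ≤ m) :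
    Pk K η' m' R ρ f := by
  obtain ⟨A, h1, h2, h3, h4⟩ := h
  refine ⟨A, h1, fun v hv => (h2 v hv).trans ?_, fun j hj v => (h3 j hj v).trans ?_, h4⟩
  · exact Real.rpow_le_rpow_of_exponent_le hR (by linarith)
  · have h5 : R ^ (1 / 2 + η) ≤ R ^ (1 / 2 + η') := Real.rpow_le_rpow_of_exponent_le hR (by linarith)
    have h6 : 0 ≤ R ^ (1 / 2 + η) := Real.rpow_nonneg (by linarith) _
    exact mul_le_mul hm (pow_le_pow_left₀ h6 h5 j) (pow_nonneg h6 j) (hm0.trans hm)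

theorem NFM_rg {C C' e ζ ζ1 : ℝ} (h : Rg C e ζ ζ1) (hC : C' ≤ C) : Rg C' e ζ ζ1 := by
  obtain ⟨h1, h2, h3, h4, h5⟩ := h
  have h6 : 0 < ζ1 := lt_of_lt_of_le h2 h3
  exact ⟨h1, h2, h3, (mul_le_mul_of_nonneg_right hC h1).trans h4, (mul_le_mul_of_nonneg_right hC h6.le).trans h5⟩

theorem NFM_win {k R : ℝ} (hk : 0 < k) (hR : max ((2 / k) ^ 4) 1 ≤ R) {p : SL(2, ℝ) × ℝ} (hp : p ∈ GW 2 R) : |p.2| ≤ k := by
  have hR1 : 1 ≤ R := (le_max_right _ _).trans hR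
  have hRp : 0 < R := by linarith
  have h1 : p.2 ∈ Icc (-(2 * R ^ (-(1 / 4) : ℝ))) (2 * R ^ (-(1 / 4) : ℝ)) := hp.2
  have h2 : 2 / k ≤ R ^ (1 / 4 : ℝ) := by
    have h3 : ((2 / k) ^ 4) ^ (1 / 4 : ℝ) ≤ R ^ (1 / 4 : ℝ) :=
      Real.rpow_le_rpow (by positivity) ((le_max_left _ _).trans hR) (by norm_num)
    have h4 : ((2 / k) ^ 4) ^ (1 / 4 : ℝ) = 2 / k := by
      rw [← Real.rpow_natCast, ← Real.rpow_mul (by positivity)]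
      norm_num
    rwa [h4] at h3
  have h5 : R ^ (1 / 4 : ℝ) * R ^ (-(1 / 4) : ℝ) = 1 := by
    rw [← Real.rpow_add hRp]
    norm_num
  have h6 : 0 < R ^ (-(1 / 4) : ℝ) := Real.rpow_pos_of_pos hRp _
  have h7 : 2 / k * R ^ (-(1 / 4) : ℝ) ≤ 1 := (mul_le_mul_of_nonneg_right h2 h6.le).trans h5.le
  have h8 : 2 * R ^ (-(1 / 4) : ℝ) ≤ k := by
    have h9 : 2 / k * R ^ (-(1 / 4) : ℝ) = 2 * R ^ (-(1 / 4) : ℝ) / k := by ring
    rw [h9, div_le_one hk] at h7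
    exact h7
  rw [abs_le]
  exact ⟨by linarith [h1.1], by linarith [h1.2]⟩

theorem NFM_fG (hNUB : NUB_stmt) {Γ : Subgroup SL(2, ℝ)} {k : ℝ} {B : ℕ → ℝ} {D : Dyn} (hO : OKN Γ k B D) {ch : ℝ → ℝ} (hch : CH ch) (ζ R : ℝ) :
    Continuous (fun x : (SL(2, ℝ) × ℝ) × ℂ => fG D ch ζ R x.1 x.2) ∧ ∀ (γ : Γ) (p : SL(2, ℝ) × ℝ), fG D ch ζ R ((γ : SL(2, ℝ)) * p.1, p.2) = fG D ch ζ R p := by
  obtain ⟨C, hC, h⟩ := hNUB k hO.pot.kpos.1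
  obtain ⟨-, -, -, ⟨-, -, -, hr, -⟩, hi, -⟩ := h Γ B D.U hO.pot
  constructor
  · have h0 : Continuous fun x : (SL(2, ℝ) × ℝ) × ℂ => ((x.1.2, x.1.1) : ℝ × SL(2, ℝ)) :=
      continuous_fst.snd.prodMk continuous_fst.fst
    have h01 := hr.comp h0
    have h1 : Continuous fun x : (SL(2, ℝ) × ℝ) × ℂ => rho D.U x.1.2 x.1.1 := h01
    have h2 : Continuous ch := hch.smooth.continuous
    have h3 : Continuous fun x : (SL(2, ℝ) × ℝ) × ℂ => b0 ch ζ R x.2 := by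
      unfold b0
      fun_prop
    unfold fG
    fun_prop
  · intro γ p
    funext v
    unfold fG
    have h1 : rho D.U p.2 ((γ : SL(2, ℝ)) * p.1) = rho D.U p.2 p.1 := (hi γ p.1 p.2).2.2.2.2.1
    show _ * Complex.exp (((R * rho D.U p.2 ((γ : SL(2, ℝ)) * p.1) * v.re : ℝ) : ℂ) * Complex.I) = _
    rw [h1]

theorem NFM_proof (hNPB : NPB_stmt) (hNPE : NPE_stmt) (hNPR : NPR_stmt) (hNUB : NUB_stmt) : NFM_stmt := by
  intro k hk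
  obtain ⟨C1, hC1, hB⟩ := hNPB k hk
  obtain ⟨C2, hC2, hE⟩ := hNPE k hk
  refine ⟨max (max C1 C2) 8, hC1.trans ((le_max_left _ _).trans (le_max_left _ _)), ?_⟩
  intro ch K e ζ ζ1 B hch hRg
  set C : ℝ := max (max C1 C2) 8 with hC
  have hCC1 : C1 ≤ C := (le_max_left _ _).trans (le_max_left _ _)
  have hCC2 : C2 ≤ C := (le_max_right _ _).trans (le_max_left _ _)
  have hCC8 : 8 ≤ C := le_max_right _ _
  obtain ⟨R1, hR1, hB⟩ := hB ch K e ζ ζ1 hch (NFM_rg hRg hCC1)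
  obtain ⟨R2, hR2, hE⟩ := hE ch K e ζ ζ1 B hch (NFM_rg hRg hCC2)
  refine ⟨max (max R1 R2) (max (max ((2 / k) ^ 4) 1) 2), hR1.trans ((le_max_left _ _).trans (le_max_left _ _)), ?_⟩
  intro R t Γ D hR hO ht
  have hRR1 : R1 ≤ R := ((le_max_left _ _).trans (le_max_left _ _)).trans hR
  have hRR2 : R2 ≤ R := ((le_max_right _ _).trans (le_max_left _ _)).trans hR
  have hRk : max ((2 / k) ^ 4) 1 ≤ R := ((le_max_left _ _).trans (le_max_right _ _)).trans hR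
  have hR2' : 2 ≤ R := ((le_max_right _ _).trans (le_max_right _ _)).trans hR
  have hR1' : 1 ≤ R := by linarith
  obtain ⟨he, hζ, hζζ, hCe, hCζ⟩ := hRg
  have hζ1 : 0 < ζ1 := lt_of_lt_of_le hζ hζζ
  have hζ8 : ζ1 ≤ 1 / 8 := by nlinarith
  obtain ⟨-, -, -, -, hcp, hcE, hinv⟩ := hNPR ch ζ ζ1 R k Γ B D hch hζ1 hζ8 hR2' hO
  obtain ⟨hcG, hiG⟩ := NFM_fG hNUB hO hch ζ R
  have e1 : C1 * ζ1 ≤ C * ζ1 := mul_le_mul_of_nonneg_right hCC1 hζ1.le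
  have e2 : C2 * ζ1 ≤ C * ζ1 := mul_le_mul_of_nonneg_right hCC2 hζ1.le
  have m1 : R ^ (3 / 2 + C1 * ζ1) ≤ R ^ (3 / 2 + C * ζ1) := Real.rpow_le_rpow_of_exponent_le hR1' (by linarith)
  have m2 : R ^ (1 + C2 * ζ1) ≤ R ^ (1 + C * ζ1) := Real.rpow_le_rpow_of_exponent_le hR1' (by linarith)
  have m3 : 0 ≤ R ^ (3 / 2 + C1 * ζ1) := Real.rpow_nonneg (by linarith) _
  have m4 : 0 ≤ R ^ (1 + C2 * ζ1) := Real.rpow_nonneg (by linarith) _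
  have hmap : Continuous fun x : (SL(2, ℝ) × ℝ) × ℂ => (((x.1, t), x.2) : ((SL(2, ℝ) × ℝ) × ℝ) × ℂ) :=
    (continuous_fst.prodMk continuous_const).prodMk continuous_snd
  have hmapOn : ContinuousOn (fun x : (SL(2, ℝ) × ℝ) × ℂ => (((x.1, t), x.2) : ((SL(2, ℝ) × ℝ) × ℝ) × ℂ)) {x | |x.1.2| ≤ k} := hmap.continuousOn
  have hmt : MapsTo (fun x : (SL(2, ℝ) × ℝ) × ℂ => (((x.1, t), x.2) : ((SL(2, ℝ) × ℝ) × ℝ) × ℂ)) {x | |x.1.2| ≤ k} {x | |x.1.1.2| ≤ k} := fun x hx => hx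
  have hc1 := hcp.comp hmapOn hmt
  have hc2 := hcE.comp hmapOn hmt
  have hfl0 : ∀ p : SL(2, ℝ) × ℝ, D.fl p.2 0 p.1 = p.1 := fun p => hO.fl0 p.2 p.1
  refine ⟨⟨?_, fun γ p => (hinv γ p t).2.1, fun p hp => ?_⟩, ⟨?_, fun γ p => (hinv γ p t).2.2.1, fun p hp => ?_⟩,
    ⟨hcG.continuousOn, hiG, fun p hp => ?_⟩, fun p z => rfl, fun p z => ?_⟩
  · exact hc1
  · exact NFM_pk hR1' (hB R Γ B D p t hRR1 hO (NFM_win hk hRk hp) ht).2 e1 m1 m3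
  · exact hc2
  · exact NFM_pk hR1' (hE R Γ D p t hRR2 hO (NFM_win hk hRk hp) ht) e2 m2 m4
  · rw [hfl0]
    exact NFM_pk hR1' (hB R Γ B D p t hRR1 hO (NFM_win hk hRk hp) ht).1 e1 m1 m3
  · show fG D ch ζ R p (cd ((D.fl p.2 0 p.1)⁻¹ • z)) = _
    rw [hfl0]
    rfl

end

end Pool.Agent.VN
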